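import Pool.Agent.Helper97.TI.Defs

set_option autoImplicit false
open MvPolynomial

noncomputable section

namespace TI

variable {κ : ℕ}

theorem IT_eval_phi (F : Fin κ → RR κ) (v : Fin κ → ℂ) (p : RR κ) :
    eval v (phi F p) = eval (fun i => eval v (F i)) p := by
  have h : (eval v).comp ((phi F : RR κ →ₐ[ℂ] RR κ) : RR κ →+* RR κ) =
      eval (fun i => eval v (F i)) := by
    apply MvPolynomial.ringHom_ext
    · intro r
      simp [phi]
    · intro i
      simp [phi]
  exact congrArg (fun g : RR κ →+* ℂ => g p) h

/-- IT: iterates -/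
theorem nonDeg_iter {d : ℕ} {F : Fin κ → RR κ} (hF : NonDeg d F) (N : ℕ) (hN : 0 < N) :
    NonDeg (d ^ N) (fun i => ((phi F) ^ N) (X i)) ∧
      phi (fun i => ((phi F) ^ N) (X i)) = (phi F) ^ N := by
  refine ⟨⟨Nat.one_lt_pow (Nat.pos_iff_ne_zero.1 hN) hF.hd, ?_, ?_⟩, ?_⟩
  · clear hN
    induction N with
    | zero => intro i; simpa using isHomogeneous_X ℂ i
    | succ N ih =>
      intro i
      have h1 : ((phi F) ^ (N + 1)) (X i) = phi F (((phi F) ^ N) (X i)) := by
        rw [pow_succ']; rfl
      rw [h1, pow_succ']
      exact (ih i).aeval F hF.hom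
  · clear hN
    induction N with
    | zero =>
      intro v hv
      funext i
      simpa using hv i
    | succ N ih =>
      intro v hv
      apply hF.nd
      have h2 : (fun i => eval v (F i)) = 0 := by
        apply ih
        intro i
        have h1 : ((phi F) ^ (N + 1)) (X i) = phi F (((phi F) ^ N) (X i)) := by
          rw [pow_succ']; rfl
        have h3 := hv i
        simp only [h1] at h3
        rwa [IT_eval_phi] at h3
      intro i
      exact congrFun h2 i
  · apply MvPolynomial.algHom_ext
    intro i
    simp [phi]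

end TI
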